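import Pool.Agent.MP_334d28_an.BentMap

namespace Pool.Agent.Results.MP_334d28_an.BentSlit

theorem result :
    ∃ h g : ℂ → ℂ, ∃ c : ℂ,
      DifferentiableOn ℂ h (Metric.ball (0 : ℂ) 1) ∧
      DifferentiableOn ℂ g (Metric.ball (0 : ℂ) 1) ∧
      h 0 = 0 ∧ g 0 = 0 ∧ deriv h 0 = 1 ∧ deriv g 0 = 0 ∧
      Set.InjOn (fun z => h z + (starRingEnd ℂ) (g z)) (Metric.ball (0 : ℂ) 1) ∧
      (∀ z ∈ Metric.ball (0 : ℂ) 1, ‖deriv g z‖ < ‖deriv h z‖) ∧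
      (∀ z ∈ Metric.ball (0 : ℂ) 1, deriv g z = c * z ^ 2 * deriv h z) ∧
      iteratedDeriv 2 g 0 / 2 = 0 ∧
      ‖iteratedDeriv 2 h 0 / 2‖ = Real.sqrt 5 :=
  Pool.Agent.MP_334d28_an.Bent.bent_slit

end Pool.Agent.Results.MP_334d28_an.BentSlit
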