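import Pool.Agent.Mg.F334d28p.G363529
import Pool.Agent.MP_334d28_an.Lewy

namespace Pool.Agent.Results.MP_334d28_an.Sharp

theorem result :
    ∀ h g : ℂ → ℂ,
      DifferentiableOn ℂ h (Metric.ball (0 : ℂ) 1) →
      DifferentiableOn ℂ g (Metric.ball (0 : ℂ) 1) →
      h 0 = 0 → g 0 = 0 → deriv h 0 = 1 → deriv g 0 = 0 →
      Set.InjOn (fun z => h z + (starRingEnd ℂ) (g z)) (Metric.ball (0 : ℂ) 1) →
      ‖iteratedDeriv 2 h 0 / 2‖ ≤ 5 / 2 :=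
  fun h g hh hg _ _ h1 g1 hi => Pool.Agent.MP_334d28_an.K.all_st h g hh hg h1 g1 hi
    (Pool.Agent.MP_334d28_an.Lewy.sense hh hg h1 g1 hi)

end Pool.Agent.Results.MP_334d28_an.Sharp
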